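import Mathlib
import Pool.Agent.Q101.SemiProj2

/-!
# MP_d0fcce: semiprojective separable Banach lattices are `1⁺`-projective

For a closed ideal `J` of a Banach lattice `X` the quotient Banach lattice is the normed space
`X ⧸ J` with the modulus `|[x]| = [|x|]`; `Q101.SemiProj.IsLatticeHomMod J T` says that the
bounded linear map `T : A → X ⧸ J` is a lattice homomorphism.
`Q101.SemiProj.IsSemiprojective A` and `Q101.SemiProj.IsOnePlusProjective A` are the two notions of
the problem, verbatim.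
-/

namespace Pool.Agent.Results.MP_d0fcce_an.Coincide

open Q101.SemiProj

universe u v

/-- **Full positive answer.** A separable Banach lattice `A` is semiprojective if and only if it
is `1⁺`-projective. -/
theorem result (A : Type u) [NormedAddCommGroup A] [NormedSpace ℝ A] [CompleteSpace A]
    [Lattice A] [IsOrderedAddMonoid A] [IsOrderedModule ℝ A] [HasSolidNorm A]
    [TopologicalSpace.SeparableSpace A] :
    IsSemiprojective.{u, v} A ↔ IsOnePlusProjective.{u, v} A := by
  refine ⟨isOnePlusProjective, ?_⟩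
  intro hA B _ _ _ _ _ _ _ _ I In hI hIn _ hcl φ hφ hφ1
  have hle : ∀ x ∈ In 0, x ∈ I := by
    intro x hx
    have h1 : x ∈ closure (⋃ n, (In n : Set B)) :=
      subset_closure (Set.mem_iUnion.2 ⟨0, hx⟩)
    rw [← hcl] at h1
    exact h1
  refine ⟨0, fun ε hε => ?_⟩
  obtain ⟨T, h1, h2, h3⟩ := hA B I hI φ hφ ε hε
  let q : B →ₗ[ℝ] B ⧸ In 0 := (In 0).mkQ
  have hq : ∀ x, ‖q x‖ ≤ 1 * ‖x‖ := fun x => by
    rw [one_mul]
    exact Submodule.Quotient.norm_mk_le _ _
  refine ⟨(q.mkContinuous 1 hq).comp T, fun a x hx => ?_, fun a b hb => ?_, ?_⟩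
  · have hx' : (Submodule.Quotient.mk x : B ⧸ In 0) = Submodule.Quotient.mk (T a) := hx
    rw [Submodule.Quotient.eq] at hx'
    show (Submodule.Quotient.mk |x| : B ⧸ In 0) = Submodule.Quotient.mk (T |a|)
    rw [Submodule.Quotient.eq, h1]
    exact (hIn 0).solid _ _ hx' (abs_abs_sub_abs_le _ _)
  · have hb' : (Submodule.Quotient.mk b : B ⧸ In 0) = Submodule.Quotient.mk (T a) := hb
    rw [Submodule.Quotient.eq] at hb'
    rw [← h2, Submodule.Quotient.eq]
    exact hle _ hb'
  · refine (ContinuousLinearMap.opNorm_comp_le _ _).trans ?_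
    have h4 : ‖q.mkContinuous 1 hq‖ ≤ 1 := LinearMap.mkContinuous_norm_le q zero_le_one hq
    have h5 : (1 + ε) * ‖φ‖ ≤ (1 + ε) * 1 := mul_le_mul_of_nonneg_left hφ1 (by positivity)
    nlinarith [norm_nonneg T, norm_nonneg (q.mkContinuous 1 hq)]

end Pool.Agent.Results.MP_d0fcce_an.Coincide
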